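import Mathlib

set_option autoImplicit false
open Real

theorem Pool.Agent.Results.MP_7b4a8e_an.Three.result :
    ∃ (A p : ℝ) (x : ℕ → ℝ), 0 < A ∧ 0 < p ∧ (∀ n, 0 < x n) ∧
      (∀ n, x (n + 2) = A / x (n + 1) ^ 2 + 1 / x n ^ p) ∧
      IsLeast {N : ℕ | 0 < N ∧ ∀ n, x (n + N) = x n} 3 := by
  have hc : ContinuousOn (fun A : ℝ => log (1 - A / (1 + A / 4) ^ 2) * log (1 + A / 4) -
      log (2 - A) * log 2) (Set.Icc 1 (7 / 4)) := by
    have h1 : ∀ A ∈ Set.Icc (1 : ℝ) (7 / 4), 1 + A / 4 ≠ 0 := fun A h => by linarith [h.1]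
    refine ((ContinuousOn.log (continuousOn_const.sub (continuousOn_id.div (by fun_prop)
      fun A h => pow_ne_zero _ (h1 A h))) fun A h => ?_).mul
      (ContinuousOn.log (by fun_prop) h1)).sub
      ((ContinuousOn.log (by fun_prop) fun A h => by linarith [h.2]).mul continuousOn_const)
    have : A / (1 + A / 4) ^ 2 < 1 := by
      rw [div_lt_one (by nlinarith [h.1])]; nlinarith [h.1, h.2]
    exact (sub_pos.2 this).ne'
  obtain ⟨A, ⟨h1, h2⟩, hA⟩ := intermediate_value_Icc (by norm_num : (1 : ℝ) ≤ 7 / 4) hc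
    (show (0 : ℝ) ∈ _ from ⟨by
      have a1 : log (1 - 1 / (1 + 1 / 4) ^ 2 : ℝ) < 0 := log_neg (by norm_num) (by norm_num)
      have a2 : 0 < log (1 + 1 / 4 : ℝ) := log_pos (by norm_num)
      have a3 : log (2 - 1 : ℝ) = 0 := by norm_num
      simp only [a3]; nlinarith, by
      have a0 := log_two_gt_d9
      have a1 : -(3 * log 2) ≤ log (1 - 7 / 4 / (1 + 7 / 4 / 4) ^ 2 : ℝ) := by
        rw [show 3 * log 2 = log (2 ^ 3) by rw [log_pow]; norm_num, ← log_inv]
        exact log_le_log (by norm_num) (by norm_num)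
      have a2 : 0 < log (1 + 7 / 4 / 4 : ℝ) := log_pos (by norm_num)
      have a4 := log_le_sub_one_of_pos (show (0 : ℝ) < 1 + 7 / 4 / 4 by norm_num)
      have a3 : log (2 - 7 / 4 : ℝ) = -(2 * log 2) := by
        rw [show 2 * log 2 = log (2 ^ 2) by rw [log_pow]; norm_num, ← log_inv]; norm_num
      simp only [a3]; nlinarith⟩)
  simp only at hA
  set c := 1 + A / 4 with hcdef
  have c1 : 1 < c := by linarith
  have c2 : c < 2 := by linarith
  have q1 : A / c ^ 2 < 1 := by rw [div_lt_one (by positivity)]; nlinarith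
  have q0 : 0 < A / c ^ 2 := by positivity
  have l2 : 0 < log 2 := log_pos (by norm_num)
  have lc : 0 < log c := log_pos c1
  have ln : log (1 - A / c ^ 2) < 0 := log_neg (by linarith) (by linarith)
  set p := -log (1 - A / c ^ 2) / log 2 with hp
  have e1 : 1 / (2 : ℝ) ^ p = 1 - A / c ^ 2 := by
    rw [rpow_def_of_pos two_pos, hp, mul_div_cancel₀ _ l2.ne', exp_neg, exp_log (by linarith)]; simp
  have e2 : 1 / c ^ p = 2 - A := by
    have : log c * p = -log (2 - A) := by rw [hp, mul_div_assoc', div_eq_iff l2.ne']; linarith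
    rw [rpow_def_of_pos (by linarith), this, exp_neg, exp_log (by linarith)]; simp
  refine ⟨A, p, fun n => if n % 3 = 0 then 1 else if n % 3 = 1 then 2 else c, by linarith,
    div_pos (by linarith) l2, fun n => by dsimp only; split_ifs <;> linarith, fun n => ?_,
    ⟨by norm_num, fun n => by simp⟩, ?_⟩
  · rcases (by omega : n % 3 = 0 ∨ n % 3 = 1 ∨ n % 3 = 2) with h | h | h
    · have a1 : (n + 1) % 3 = 1 := by omega
      have a2 : (n + 2) % 3 = 2 := by omega
      simp only [h, a1, a2]; norm_num; linarith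
    · have a1 : (n + 1) % 3 = 2 := by omega
      have a2 : (n + 2) % 3 = 0 := by omega
      simp only [h, a1, a2]; norm_num; rw [one_div] at e1; linarith
    · have a1 : (n + 1) % 3 = 0 := by omega
      have a2 : (n + 2) % 3 = 1 := by omega
      simp only [h, a1, a2]; norm_num; rw [one_div] at e2; linarith
  · rintro N ⟨h0, hN⟩
    by_contra hlt
    have := hN 0
    obtain rfl | rfl : N = 1 ∨ N = 2 := by omega
    · norm_num at this
    · norm_num at this; linarith
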